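import Mathlib

/-!
Sets of at least six points in the plane: the largest triangle has at least twice the area of the
smallest nondegenerate one.
-/

set_option autoImplicit false

namespace Pool.Agent.Results.MP_b1b11b_co.SixPoints

/-- Twice the signed area of the triangle `p q r`. -/
def D (p q r : ℝ × ℝ) : ℝ := (q.1 - p.1) * (r.2 - p.2) - (r.1 - p.1) * (q.2 - p.2)

/-- The area of the triangle `p q r`. -/
noncomputable def area (p q r : ℝ × ℝ) : ℝ := |D p q r| / 2

/-- The largest area of a triangle spanned by `X` is at least `t` times the least positive area of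
a triangle spanned by `X`. -/
def RatioAtLeast (X : Finset (ℝ × ℝ)) (t : ℝ) : Prop :=
  ∃ a ∈ X, ∃ b ∈ X, ∃ c ∈ X, ∃ d ∈ X, ∃ e ∈ X, ∃ f ∈ X,
    0 < area d e f ∧ t * area d e f ≤ area a b c

lemma D_sum (A B C P : ℝ × ℝ) : D P B C + D A P C + D A B P = D A B C := by
  unfold D; ring

lemma D_B (A B C P Q : ℝ × ℝ) :
    D B P Q * D A B C = D Q B C * D A B P - D P B C * D A B Q := by
  unfold D; ring

lemma D_C (A B C P Q : ℝ × ℝ) :
    D C P Q * D A B C = D P B C * D A Q C - D Q B C * D A P C := by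
  unfold D; ring

lemma D_det (A B C P Q R : ℝ × ℝ) :
    D P Q R * (D A B C) ^ 2 =
      D P B C * (D A Q C * D A B R - D A B Q * D A R C)
      - D A P C * (D Q B C * D A B R - D A B Q * D R B C)
      + D A B P * (D Q B C * D A R C - D A Q C * D R B C) := by
  unfold D; ring

lemma coord1 (A B C P : ℝ × ℝ) :
    (P.1 - A.1) * D A B C = D A P C * (B.1 - A.1) + D A B P * (C.1 - A.1) := by
  unfold D; ring

lemma coord2 (A B C P : ℝ × ℝ) :
    (P.2 - A.2) * D A B C = D A P C * (B.2 - A.2) + D A B P * (C.2 - A.2) := by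
  unfold D; ring

lemma D_cyc (p q r : ℝ × ℝ) : D q r p = D p q r := by
  unfold D; ring

lemma ext_of_coords {A B C P Q : ℝ × ℝ} (hM : D A B C ≠ 0) (hb : D A P C = D A Q C)
    (hc : D A B P = D A B Q) : P = Q := by
  have h1 := coord1 A B C P
  have h2 := coord1 A B C Q
  have h3 := coord2 A B C P
  have h4 := coord2 A B C Q
  rw [hb, hc, ← h2] at h1
  rw [hb, hc, ← h4] at h3
  have e1 : P.1 - A.1 = Q.1 - A.1 := mul_right_cancel₀ hM h1
  have e2 : P.2 - A.2 = Q.2 - A.2 := mul_right_cancel₀ hM h3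
  exact Prod.ext (by linarith) (by linarith)

/-- The determinant inequality in normalised form. -/
lemma det_gt (p q r b c a' c' a'' b'' : ℝ) (hp : 1 / 2 < p) (hq : 1 / 2 < q) (hr : 1 / 2 < r)
    (hP : b + c = 1 + p) (hb : b ≤ 1) (hc : c ≤ 1)
    (hQ : a' + c' = 1 + q) (ha' : a' ≤ 1) (hc' : c' ≤ 1)
    (hR : a'' + b'' = 1 + r) (ha'' : a'' ≤ 1) (hb'' : b'' ≤ 1) :
    1 < -(p * q * r) + p * c' * b'' + b * a' * r + b * c' * a'' + c * a' * b'' + c * q * a'' := by
  have b0 : p ≤ b := by linarith
  have c0 : p ≤ c := by linarith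
  have a1 : q ≤ a' := by linarith
  have c1 : q ≤ c' := by linarith
  have a2 : r ≤ a'' := by linarith
  have b2 : r ≤ b'' := by linarith
  have h1 : p * q * r ≤ p * c' * b'' :=
    mul_le_mul (mul_le_mul_of_nonneg_left c1 (by linarith)) b2 (by linarith)
      (mul_nonneg (by linarith) (by linarith))
  have h2 : b * (1 / 2) * (1 / 2) ≤ b * a' * r :=
    mul_le_mul (mul_le_mul_of_nonneg_left (by linarith) (by linarith)) (by linarith) (by norm_num)
      (mul_nonneg (by linarith) (by linarith))
  have h3 : c * (1 / 2) * (1 / 2) ≤ c * q * a'' :=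
    mul_le_mul (mul_le_mul_of_nonneg_left (by linarith) (by linarith)) (by linarith) (by norm_num)
      (mul_nonneg (by linarith) (by linarith))
  have h4 : (3 / 2 - b) * (3 / 2 - c') * (3 / 2 - a'') ≤ c * a' * b'' :=
    mul_le_mul (mul_le_mul (by linarith) (by linarith) (by linarith) (by linarith)) (by linarith)
      (by linarith) (mul_nonneg (by linarith) (by linarith))
  have h5 : 0 ≤ (b - 1 / 2) * (c' - 1 / 2) * (a'' - 1 / 2) :=
    mul_nonneg (mul_nonneg (by linarith) (by linarith)) (by linarith)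
  have h6 : 0 ≤ (1 - b) * (1 - c') * (1 - a'') :=
    mul_nonneg (mul_nonneg (by linarith) (by linarith)) (by linarith)
  have h7 : b * c' * a'' + (3 / 2 - b) * (3 / 2 - c') * (3 / 2 - a'') =
      3 / 4 + 3 * ((b - 1 / 2) * (c' - 1 / 2) * (a'' - 1 / 2)) + 3 * ((1 - b) * (1 - c') * (1 - a'')) := by
    ring
  linarith

/-- The properties of the set `X` used in the argument by contradiction. -/
def Tight (X : Finset (ℝ × ℝ)) (M : ℝ) : Prop :=
  ∀ p ∈ X, ∀ q ∈ X, ∀ r ∈ X, |D p q r| ≤ M ∧ (D p q r = 0 ∨ M < 2 * |D p q r|)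

lemma neg_of {X : Finset (ℝ × ℝ)} {M : ℝ} (hT : Tight X M) {p q r : ℝ × ℝ} (hp : p ∈ X)
    (hq : q ∈ X) (hr : r ∈ X) (h : D p q r < 0) : M < 2 * (-D p q r) := by
  rcases (hT p hp q hq r hr).2 with h1 | h1
  · rw [h1] at h; exact absurd h (lt_irrefl _)
  · rwa [abs_of_neg h] at h1

lemma le_of {X : Finset (ℝ × ℝ)} {M : ℝ} (hT : Tight X M) {p q r : ℝ × ℝ} (hp : p ∈ X)
    (hq : q ∈ X) (hr : r ∈ X) : D p q r ≤ M :=
  (le_abs_self _).trans (hT p hp q hq r hr).1

/-- At most one point beyond a side. -/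
lemma same {X : Finset (ℝ × ℝ)} {A B C P Q : ℝ × ℝ} (hA : A ∈ X) (hB : B ∈ X) (hC : C ∈ X)
    (hP : P ∈ X) (hQ : Q ∈ X) (hM : 0 < D A B C) (hT : Tight X (D A B C))
    (hPa : D P B C < 0) (hQa : D Q B C < 0) : P = Q := by
  have s1 := D_sum A B C P
  have s2 := D_sum A B C Q
  have p1 := neg_of hT hP hB hC hPa
  have q1 := neg_of hT hQ hB hC hQa
  have p2 := le_of hT hA hP hC
  have p3 := le_of hT hA hB hP
  have q2 := le_of hT hA hQ hC
  have q3 := le_of hT hA hB hQ
  have e1 := D_B A B C P Q
  have e2 := D_C A B C P Q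
  have g1 := (hT B hB P hP Q hQ).2
  have g2 := (hT C hC P hP Q hQ).2
  set M := D A B C with hMdef
  set a := D P B C
  set b := D A P C
  set c := D A B P
  set a' := D Q B C
  set b' := D A Q C
  set c' := D A B Q
  have pa : -a ≤ M := by
    have := (hT P hP B hB C hC).1
    rw [abs_of_neg hPa] at this
    exact this
  have qa : -a' ≤ M := by
    have := (hT Q hQ B hB C hC).1
    rw [abs_of_neg hQa] at this
    exact this
  -- bounds for the two products
  have k1 : (-a) * (M - b') < M * (M / 2) := by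
    have : (-a) * (M - b') ≤ M * (M - b') := mul_le_mul_of_nonneg_right pa (by linarith)
    have h2 : M * (M - b') < M * (M / 2) := mul_lt_mul_of_pos_left (by linarith) hM
    linarith
  have k2 : (-a') * (M - b) < M * (M / 2) := by
    have : (-a') * (M - b) ≤ M * (M - b) := mul_le_mul_of_nonneg_right qa (by linarith)
    have h2 : M * (M - b) < M * (M / 2) := mul_lt_mul_of_pos_left (by linarith) hM
    linarith
  have k3 : (-a) * (M - c') < M * (M / 2) := by
    have : (-a) * (M - c') ≤ M * (M - c') := mul_le_mul_of_nonneg_right pa (by linarith)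
    have h2 : M * (M - c') < M * (M / 2) := mul_lt_mul_of_pos_left (by linarith) hM
    linarith
  have k4 : (-a') * (M - c) < M * (M / 2) := by
    have : (-a') * (M - c) ≤ M * (M - c) := mul_le_mul_of_nonneg_right qa (by linarith)
    have h2 : M * (M - c) < M * (M / 2) := mul_lt_mul_of_pos_left (by linarith) hM
    linarith
  have n1 : 0 ≤ (-a) * (M - b') := mul_nonneg (by linarith) (by linarith)
  have n2 : 0 ≤ (-a') * (M - b) := mul_nonneg (by linarith) (by linarith)
  have n3 : 0 ≤ (-a) * (M - c') := mul_nonneg (by linarith) (by linarith)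
  have n4 : 0 ≤ (-a') * (M - c) := mul_nonneg (by linarith) (by linarith)
  have hc : c = M - a - b := by linarith
  have hc' : c' = M - a' - b' := by linarith
  have e1' : D B P Q * M = (-a) * (M - b') - (-a') * (M - b) := by
    rw [e1, hc, hc']; ring
  have e2' : D C P Q * M = (-a') * (M - c) - (-a) * (M - c') := by
    have hb : b = M - a - c := by linarith
    have hb' : b' = M - a' - c' := by linarith
    rw [e2, hb, hb']; ring
  have z1 : D B P Q = 0 := by
    rcases g1 with g | g
    · exact g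
    · exfalso
      rcases abs_cases (D B P Q) with ⟨h, _⟩ | ⟨h, _⟩ <;> rw [h] at g <;> nlinarith
  have z2 : D C P Q = 0 := by
    rcases g2 with g | g
    · exact g
    · exfalso
      rcases abs_cases (D C P Q) with ⟨h, _⟩ | ⟨h, _⟩ <;> rw [h] at g <;> nlinarith
  rw [z1, zero_mul] at e1 e1'
  rw [z2, zero_mul] at e2 e2'
  -- a' c = a c', a b' = a' b
  have haa : a = a' := by
    have h : a' * (b + c) = a * (b' + c') := by linarith
    have hbc : b + c = M - a := by linarith
    have hbc' : b' + c' = M - a' := by linarith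
    rw [hbc, hbc'] at h
    have : (a' - a) * M = 0 := by linarith
    rcases mul_eq_zero.mp this with h | h
    · linarith
    · exact absurd h hM.ne'
  have hne : a' ≠ 0 := hQa.ne
  rw [haa] at e1 e2
  have hcc : c = c' := by
    have : a' * (c - c') = 0 := by linarith
    rcases mul_eq_zero.mp this with h | h
    · exact absurd h hne
    · linarith
  have hbb : b = b' := by linarith
  exact ext_of_coords hM.ne' hbb hcc

/-- Three points beyond the three sides span a larger triangle. -/
lemma diff {X : Finset (ℝ × ℝ)} {A B C P Q R : ℝ × ℝ} (hA : A ∈ X) (hB : B ∈ X) (hC : C ∈ X)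
    (hP : P ∈ X) (hQ : Q ∈ X) (hR : R ∈ X) (hM : 0 < D A B C) (hT : Tight X (D A B C))
    (hPa : D P B C < 0) (hQb : D A Q C < 0) (hRc : D A B R < 0) : False := by
  have s1 := D_sum A B C P
  have s2 := D_sum A B C Q
  have s3 := D_sum A B C R
  have p1 := neg_of hT hP hB hC hPa
  have q1 := neg_of hT hA hQ hC hQb
  have r1 := neg_of hT hA hB hR hRc
  have p2 := le_of hT hA hP hC
  have p3 := le_of hT hA hB hP
  have q2 := le_of hT hQ hB hC
  have q3 := le_of hT hA hB hQ
  have r2 := le_of hT hR hB hC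
  have r3 := le_of hT hA hR hC
  have hdet := D_det A B C P Q R
  have hle := le_of hT hP hQ hR
  set M := D A B C with hMdef
  have key := det_gt (-D P B C / M) (-D A Q C / M) (-D A B R / M) (D A P C / M) (D A B P / M)
    (D Q B C / M) (D A B Q / M) (D R B C / M) (D A R C / M)
    (by rw [lt_div_iff₀ hM]; linarith) (by rw [lt_div_iff₀ hM]; linarith)
    (by rw [lt_div_iff₀ hM]; linarith)
    (by field_simp; linarith) (by rw [div_le_iff₀ hM]; linarith) (by rw [div_le_iff₀ hM]; linarith)
    (by field_simp; linarith) (by rw [div_le_iff₀ hM]; linarith) (by rw [div_le_iff₀ hM]; linarith)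
    (by field_simp; linarith) (by rw [div_le_iff₀ hM]; linarith) (by rw [div_le_iff₀ hM]; linarith)
  have h3 : D P Q R / M ≤ 1 := by rw [div_le_iff₀ hM]; linarith
  have h4 : D P Q R / M = D P Q R * M ^ 2 / M ^ 3 := by
    field_simp
  rw [h4, hdet] at h3
  have h5 : (D P B C * (D A Q C * D A B R - D A B Q * D A R C)
      - D A P C * (D Q B C * D A B R - D A B Q * D R B C)
      + D A B P * (D Q B C * D A R C - D A Q C * D R B C)) / M ^ 3 =
      -(-D P B C / M * (-D A Q C / M) * (-D A B R / M)) + -D P B C / M * (D A B Q / M) * (D A R C / M)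
        + D A P C / M * (D Q B C / M) * (-D A B R / M) + D A P C / M * (D A B Q / M) * (D R B C / M)
        + D A B P / M * (D Q B C / M) * (D A R C / M) + D A B P / M * (-D A Q C / M) * (D R B C / M) := by
    field_simp
    ring
  rw [h5] at h3
  linarith

/-- A point with no negative coordinate is a vertex. -/
lemma vertex {X : Finset (ℝ × ℝ)} {A B C P : ℝ × ℝ} (hA : A ∈ X) (hB : B ∈ X) (hC : C ∈ X)
    (hP : P ∈ X) (hM : 0 < D A B C) (hT : Tight X (D A B C))
    (h1 : 0 ≤ D P B C) (h2 : 0 ≤ D A P C) (h3 : 0 ≤ D A B P) : P = A ∨ P = B ∨ P = C := by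
  have s1 := D_sum A B C P
  have g1 := (hT P hP B hB C hC).2
  have g2 := (hT A hA P hP C hC).2
  have g3 := (hT A hA B hB P hP).2
  rw [abs_of_nonneg h1] at g1
  rw [abs_of_nonneg h2] at g2
  rw [abs_of_nonneg h3] at g3
  have dAAC : D A A C = 0 := by unfold D; ring
  have dABA : D A B A = 0 := by unfold D; ring
  have dABB : D A B B = 0 := by unfold D; ring
  have dACC : D A C C = 0 := by unfold D; ring
  rcases g1 with g1 | g1 <;> rcases g2 with g2 | g2 <;> rcases g3 with g3 | g3
  · exfalso; linarith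
  · right; right
    refine ext_of_coords hM.ne' ?_ ?_
    · rw [g2, dACC]
    · linarith
  · right; left
    refine ext_of_coords hM.ne' ?_ ?_
    · linarith
    · rw [g3, dABB]
  · exfalso; linarith
  · left
    refine ext_of_coords hM.ne' ?_ ?_
    · rw [g2, dAAC]
    · rw [g3, dABA]
  · exfalso; linarith
  · exfalso; linarith
  · exfalso; linarith

/-- Every set of at least six points of the plane, not all on one line, spans a triangle whose
area is at least twice the area of some nondegenerate spanned triangle. -/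
theorem six (X : Finset (ℝ × ℝ)) (hcard : 6 ≤ X.card)
    (hnd : ∃ p ∈ X, ∃ q ∈ X, ∃ r ∈ X, 0 < area p q r) : RatioAtLeast X 2 := by
  classical
  unfold RatioAtLeast
  obtain ⟨p, hp, q, hq, r, hr, hpos⟩ := hnd
  by_contra H
  push Not at H
  -- a triangle of maximal area
  obtain ⟨t, ht, hmax⟩ := Finset.exists_max_image (X ×ˢ X ×ˢ X)
    (fun t => |D t.1 t.2.1 t.2.2|) ⟨(p, q, r), by simp [hp, hq, hr]⟩
  obtain ⟨A, B, C, hA, hB, hC, hM, hmx⟩ : ∃ A B C : ℝ × ℝ, A ∈ X ∧ B ∈ X ∧ C ∈ X ∧ 0 < D A B C ∧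
      ∀ p ∈ X, ∀ q ∈ X, ∀ r ∈ X, |D p q r| ≤ D A B C := by
    obtain ⟨A, B, C⟩ := t
    simp only [Finset.mem_product] at ht
    have hpp : 0 < |D p q r| := by
      unfold area at hpos; linarith
    have hm : ∀ p ∈ X, ∀ q ∈ X, ∀ r ∈ X, |D p q r| ≤ |D A B C| := by
      intro p hp q hq r hr
      exact hmax (p, q, r) (by simp [hp, hq, hr])
    have h0 : 0 < |D A B C| := lt_of_lt_of_le hpp (hm p hp q hq r hr)
    rcases lt_or_gt_of_ne (abs_pos.mp h0) with h | h
    · refine ⟨A, C, B, ht.1, ht.2.2, ht.2.1, ?_, ?_⟩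
      · have : D A C B = -D A B C := by unfold D; ring
        rw [this]; linarith
      · have : D A C B = |D A B C| := by
          rw [abs_of_neg h]; unfold D; ring
        rw [this]; exact hm
    · refine ⟨A, B, C, ht.1, ht.2.1, ht.2.2, h, ?_⟩
      rw [abs_of_pos h] at hm
      exact hm
  have hT : Tight X (D A B C) := by
    intro p hp q hq r hr
    refine ⟨hmx p hp q hq r hr, ?_⟩
    by_cases h : D p q r = 0
    · exact Or.inl h
    · right
      have h1 : 0 < area p q r := by
        unfold area; have := abs_pos.mpr h; linarith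
      have h2 := H A hA B hB C hC p hp q hq r hr h1
      unfold area at h2
      rw [abs_of_pos hM] at h2
      linarith
  have hS : 2 < (((X.erase A).erase B).erase C).card := by
    have h1 := Finset.pred_card_le_card_erase (a := A) (s := X)
    have h2 := Finset.pred_card_le_card_erase (a := B) (s := X.erase A)
    have h3 := Finset.pred_card_le_card_erase (a := C) (s := (X.erase A).erase B)
    omega
  obtain ⟨P, hP, Q, hQ, R, hR, hPQ, hPR, hQR⟩ := Finset.two_lt_card.mp hS
  have hcls : ∀ P ∈ ((X.erase A).erase B).erase C, P ∈ X ∧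
      (D P B C < 0 ∨ D A P C < 0 ∨ D A B P < 0) := by
    intro P hP
    simp only [Finset.mem_erase] at hP
    obtain ⟨h1, h2, h3, h4⟩ := hP
    refine ⟨h4, ?_⟩
    by_contra hc
    push Not at hc
    rcases vertex hA hB hC h4 hM hT hc.1 hc.2.1 hc.2.2 with h | h | h
    · exact h3 h
    · exact h2 h
    · exact h1 h
  obtain ⟨hPX, cP⟩ := hcls P hP
  obtain ⟨hQX, cQ⟩ := hcls Q hQ
  obtain ⟨hRX, cR⟩ := hcls R hR
  have same1 : ∀ P ∈ X, ∀ Q ∈ X, D P B C < 0 → D Q B C < 0 → P = Q := fun P hP Q hQ h1 h2 =>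
    same hA hB hC hP hQ hM hT h1 h2
  have same2 : ∀ P ∈ X, ∀ Q ∈ X, D A P C < 0 → D A Q C < 0 → P = Q := by
    intro P hP Q hQ h1 h2
    have e : D B C A = D A B C := D_cyc A B C
    refine same (A := B) (B := C) (C := A) hB hC hA hP hQ (by rw [e]; exact hM) (by rw [e]; exact hT)
      ?_ ?_
    · rw [D_cyc]; exact h1
    · rw [D_cyc]; exact h2
  have same3 : ∀ P ∈ X, ∀ Q ∈ X, D A B P < 0 → D A B Q < 0 → P = Q := by
    intro P hP Q hQ h1 h2
    have e : D C A B = D A B C := by rw [D_cyc, D_cyc]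
    refine same (A := C) (B := A) (C := B) hC hA hB hP hQ (by rw [e]; exact hM) (by rw [e]; exact hT)
      ?_ ?_
    · rw [← D_cyc]; exact h1
    · rw [← D_cyc]; exact h2
  rcases cP with cP | cP | cP <;> rcases cQ with cQ | cQ | cQ <;> rcases cR with cR | cR | cR
  all_goals first
    | exact hPQ (same1 P hPX Q hQX cP cQ)
    | exact hPQ (same2 P hPX Q hQX cP cQ)
    | exact hPQ (same3 P hPX Q hQX cP cQ)
    | exact hPR (same1 P hPX R hRX cP cR)
    | exact hPR (same2 P hPX R hRX cP cR)
    | exact hPR (same3 P hPX R hRX cP cR)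
    | exact hQR (same1 Q hQX R hRX cQ cR)
    | exact hQR (same2 Q hQX R hRX cQ cR)
    | exact hQR (same3 Q hQX R hRX cQ cR)
    | exact diff hA hB hC hPX hQX hRX hM hT cP cQ cR
    | exact diff hA hB hC hPX hRX hQX hM hT cP cR cQ
    | exact diff hA hB hC hQX hPX hRX hM hT cQ cP cR
    | exact diff hA hB hC hQX hRX hPX hM hT cQ cR cP
    | exact diff hA hB hC hRX hPX hQX hM hT cR cP cQ
    | exact diff hA hB hC hRX hQX hPX hM hT cR cQ cP

/-- A finite set of reals with distinct elements at distance at least `m` has two elements at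
distance at least `(card - 1) * m`. -/
lemma spread (m : ℝ) : ∀ (k : ℕ) (T : Finset ℝ), T.card = k + 1 →
    (∀ x ∈ T, ∀ y ∈ T, x < y → m ≤ y - x) →
    ∃ x ∈ T, ∃ y ∈ T, (k : ℝ) * m ≤ y - x ∧ ∀ z ∈ T, z ≤ y := by
  intro k
  induction k with
  | zero =>
    intro T hT _
    obtain ⟨x, rfl⟩ := Finset.card_eq_one.mp hT
    exact ⟨x, by simp, x, by simp, by simp, by simp⟩
  | succ k ih =>
    intro T hT hsep
    have hne : T.Nonempty := by rw [← Finset.card_pos]; omega
    obtain ⟨y, hy, hmax⟩ := Finset.exists_max_image T id hne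
    have hc : (T.erase y).card = k + 1 := by rw [Finset.card_erase_of_mem hy]; omega
    obtain ⟨x, hx, w, hw, h1, h2⟩ := ih (T.erase y) hc (fun a ha b hb hab =>
      hsep a (Finset.mem_of_mem_erase ha) b (Finset.mem_of_mem_erase hb) hab)
    refine ⟨x, Finset.mem_of_mem_erase hx, y, hy, ?_, hmax⟩
    have h3 : w < y := lt_of_le_of_ne (hmax w (Finset.mem_of_mem_erase hw))
      (Finset.ne_of_mem_erase hw)
    have h4 := hsep w (Finset.mem_of_mem_erase hw) y hy h3
    push_cast
    linarith

lemma D_shift (q s t u : ℝ × ℝ) : D q t u = D q s u - D q s t + D s t u := by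
  unfold D; ring

/-- Many points on a line. -/
theorem line (X : Finset (ℝ × ℝ)) (hnd : ∃ p ∈ X, ∃ q ∈ X, ∃ r ∈ X, 0 < area p q r)
    (S : Finset (ℝ × ℝ)) (hS : S ⊆ X) (hcol : ∀ p ∈ S, ∀ q ∈ S, ∀ r ∈ S, D p q r = 0) :
    RatioAtLeast X ((S.card : ℝ) - 1) := by
  classical
  obtain ⟨p, hp, q, hq, r, hr, hpos⟩ := hnd
  -- a nondegenerate triangle of least area
  obtain ⟨t, ht, hmin⟩ := Finset.exists_min_image
    ((X ×ˢ X ×ˢ X).filter fun t => 0 < area t.1 t.2.1 t.2.2)
    (fun t => area t.1 t.2.1 t.2.2) ⟨(p, q, r), by simp [hp, hq, hr, hpos]⟩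
  obtain ⟨d, e, f⟩ := t
  simp only [Finset.mem_filter, Finset.mem_product] at ht
  obtain ⟨⟨hd, he, hf⟩, hdef⟩ := ht
  have hm : ∀ a ∈ X, ∀ b ∈ X, ∀ c ∈ X, D a b c ≠ 0 → |D d e f| ≤ |D a b c| := by
    intro a ha b hb c hc h
    have h1 : 0 < area a b c := by unfold area; have := abs_pos.mpr h; linarith
    have h2 := hmin (a, b, c) (by simp [ha, hb, hc, h1])
    simp only [area] at h2
    linarith
  have hdpos : 0 < |D d e f| := by unfold area at hdef; linarith
  by_cases hcard : S.card ≤ 1
  · refine ⟨d, hd, e, he, f, hf, d, hd, e, he, f, hf, hdef, ?_⟩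
    have h1 : (S.card : ℝ) ≤ 1 := by exact_mod_cast hcard
    nlinarith
  · push Not at hcard
    obtain ⟨s, hs, u, hu, hsu⟩ := Finset.one_lt_card.mp hcard
    -- a point of `X` off the line
    obtain ⟨o, ho, hoff⟩ : ∃ o ∈ X, D o s u ≠ 0 := by
      by_contra hcon
      push Not at hcon
      have h1 := hcon d hd
      have h2 := hcon e he
      have h3 := hcon f hf
      apply (abs_pos.mp hdpos)
      -- all of `d`, `e`, `f` lie on the line through `s` and `u`
      have hx : (u.1 - s.1) * D d e f = 0 := by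
        have : (u.1 - s.1) * D d e f = D d s u * (f.1 - e.1) + D e s u * (d.1 - f.1)
            + D f s u * (e.1 - d.1) := by unfold D; ring
        rw [this, h1, h2, h3]; ring
      have hy : (u.2 - s.2) * D d e f = 0 := by
        have : (u.2 - s.2) * D d e f = D d s u * (f.2 - e.2) + D e s u * (d.2 - f.2)
            + D f s u * (e.2 - d.2) := by unfold D; ring
        rw [this, h1, h2, h3]; ring
      rcases mul_eq_zero.mp hx with h | h
      · rcases mul_eq_zero.mp hy with h' | h'
        · exact absurd (Prod.ext (by linarith) (by linarith)) hsu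
        · exact h'
      · exact h
    -- any two distinct points of `S` are not aligned with `o`
    have hdist : ∀ a ∈ S, ∀ b ∈ S, a ≠ b → D o a b ≠ 0 := by
      intro a ha b hb hab h0
      apply hoff
      have k1 : D a b s = 0 := hcol a ha b hb s hs
      have k2 : D a b u = 0 := hcol a ha b hb u hu
      have hx : (b.1 - a.1) * D o s u = 0 := by
        have : (b.1 - a.1) * D o s u = D o a b * (u.1 - s.1) + D a b s * (o.1 - u.1)
            + D a b u * (s.1 - o.1) := by unfold D; ring
        rw [this, h0, k1, k2]; ring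
      have hy : (b.2 - a.2) * D o s u = 0 := by
        have : (b.2 - a.2) * D o s u = D o a b * (u.2 - s.2) + D a b s * (o.2 - u.2)
            + D a b u * (s.2 - o.2) := by unfold D; ring
        rw [this, h0, k1, k2]; ring
      rcases mul_eq_zero.mp hx with h | h
      · rcases mul_eq_zero.mp hy with h' | h'
        · exact absurd (Prod.ext (by linarith) (by linarith)) hab
        · exact h'
      · exact h
    have hdiff : ∀ a ∈ S, ∀ b ∈ S, D o a b = D o s b - D o s a := by
      intro a ha b hb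
      have := D_shift o s a b
      rw [hcol s hs a ha b hb] at this
      linarith
    have hinj : Set.InjOn (fun a => D o s a) (S : Set (ℝ × ℝ)) := by
      intro a ha b hb hab
      by_contra hne
      apply hdist a ha b hb hne
      rw [hdiff a ha b hb]
      simp only at hab
      linarith
    obtain ⟨k, hk⟩ : ∃ k, S.card = k + 1 := ⟨S.card - 1, by omega⟩
    obtain ⟨x, hx, y, hy, hxy, _⟩ := spread |D d e f| k (S.image fun a => D o s a)
      (by rw [Finset.card_image_of_injOn hinj, hk]) (by
        intro x hx y hy hlt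
        rw [Finset.mem_image] at hx hy
        obtain ⟨a, ha, rfl⟩ := hx
        obtain ⟨b, hb, rfl⟩ := hy
        have hab : a ≠ b := by rintro rfl; exact lt_irrefl _ hlt
        have h1 := hm o ho a (hS ha) b (hS hb) (hdist a ha b hb hab)
        rw [hdiff a ha b hb, abs_of_pos (show (0 : ℝ) < D o s b - D o s a by linarith)] at h1
        exact h1)
    rw [Finset.mem_image] at hx hy
    obtain ⟨a, ha, rfl⟩ := hx
    obtain ⟨b, hb, rfl⟩ := hy
    refine ⟨o, ho, a, hS ha, b, hS hb, d, hd, e, he, f, hf, hdef, ?_⟩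
    have h1 : (S.card : ℝ) - 1 = k := by rw [hk]; push_cast; ring
    rw [h1]
    unfold area
    rw [hdiff a ha b hb]
    have h2 := le_abs_self (D o s b - D o s a)
    linarith

/-- Let `X` be a finite set of points of the plane, not all on one line. If `X` has at least six
points then `R(X) ≥ 2`; and if `S ⊆ X` lies on a line then `R(X) ≥ |S| - 1`. -/
theorem result : ∀ X : Finset (ℝ × ℝ), (∃ p ∈ X, ∃ q ∈ X, ∃ r ∈ X, 0 < area p q r) →
    (6 ≤ X.card → RatioAtLeast X 2) ∧
    (∀ S ⊆ X, (∀ p ∈ S, ∀ q ∈ S, ∀ r ∈ S, area p q r = 0) →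
      RatioAtLeast X ((S.card : ℝ) - 1)) := by
  intro X hnd
  refine ⟨fun h => six X h hnd, fun S hS hcol => line X hnd S hS ?_⟩
  intro p hp q hq r hr
  have h := hcol p hp q hq r hr
  unfold area at h
  have h1 : |D p q r| = 0 := by linarith
  exact abs_eq_zero.mp h1

end Pool.Agent.Results.MP_b1b11b_co.SixPoints
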